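import Pool.Agent.Helper56.RZ.GoalsA

/-!
# Project RZ: packet B1 (invariant splitting of the perturbed cocycle)
-/

set_option autoImplicit false
set_option linter.unusedSectionVars false
set_option linter.unusedVariables false

open Set Filter Topology

namespace Pool.Agent.Helper93.RZ

open Pool.Agent.Helper56.RZ

variable {X : Type} [MetricSpace X] [CompactSpace X] {K : ℕ}

section algebra

variable {C : Coc X K} {F G : X → End K}

theorem pTF (hp : Pair C F G) (x : X) : C.T x * F x = F x := by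
  rw [← hp.sum, add_mul, hp.FF, hp.GF, add_zero]

theorem pFT (hp : Pair C F G) (x : X) : F x * C.T x = F x := by
  rw [← hp.sum, mul_add, hp.FF, hp.FG, add_zero]

theorem pTG (hp : Pair C F G) (x : X) : C.T x * G x = G x := by
  rw [← hp.sum, add_mul, hp.FG, hp.GG, zero_add]

theorem pGT (hp : Pair C F G) (x : X) : G x * C.T x = G x := by
  rw [← hp.sum, mul_add, hp.GF, hp.GG, zero_add]

/-- an invariant bundle is invariant under the inverse cocycle -/
theorem inv_comm (P : X → End K) (h1 : ∀ x, C.T x * P x = P x) (h2 : ∀ x, P x * C.T x = P x)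
    (h3 : ∀ x, C.A x * P x = P (C.f x) * C.A x) (x : X) :
    C.B x * P x = P (C.f.symm x) * C.B x := by
  have h := h3 (C.f.symm x)
  rw [Homeomorph.apply_symm_apply] at h
  have hBA := C.BA (C.f.symm x)
  have hAB := C.AB (C.f.symm x)
  rw [Homeomorph.apply_symm_apply] at hBA hAB
  have e1 : C.B x * P x = C.B x * (P x * (C.A (C.f.symm x) * C.B x)) := by
    rw [hAB, h2]
  have e2 : C.B x * (P x * (C.A (C.f.symm x) * C.B x))
      = (C.B x * C.A (C.f.symm x)) * P (C.f.symm x) * C.B x := by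
    have : P x * (C.A (C.f.symm x) * C.B x) = C.A (C.f.symm x) * P (C.f.symm x) * C.B x := by
      rw [h, mul_assoc]
    rw [this]
    simp only [mul_assoc]
  rw [e1, e2, hBA, h1]

theorem pair_inv (hp : Pair C F G) : Pair C.inv G F where
  contF := hp.contG
  contG := hp.contF
  FF := hp.GG
  GG := hp.FF
  FG := hp.GF
  GF := hp.FG
  sum := by
    intro x
    have h := hp.sum x
    rw [add_comm] at h
    exact h
  AF := inv_comm G (pTG hp) (pGT hp) hp.AG
  AG := inv_comm F (pTF hp) (pFT hp) hp.AF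

end algebra

theorem blk (P P' Q D T : End K) (h1 : T * Q = Q) (h2 : P' * Q = 0) (R δ η : ℝ) (hP : ‖P‖ ≤ R)
    (hQ : ‖Q‖ ≤ R) (hD : ‖D - T‖ ≤ δ) (hη : ‖P - P'‖ ≤ η) :
    ‖P * D * Q‖ ≤ R * δ * R + η * R := by
  have hR : 0 ≤ R := le_trans (norm_nonneg _) hP
  have hd : 0 ≤ δ := le_trans (norm_nonneg _) hD
  have hh : 0 ≤ η := le_trans (norm_nonneg _) hη
  have e : P * D * Q = P * (D - T) * Q + (P - P') * Q := by
    have e1 : P * (D - T) * Q = P * D * Q - P * (T * Q) := by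
      rw [mul_sub, sub_mul, mul_assoc P T Q]
    have e2 : (P - P') * Q = P * Q := by rw [sub_mul, h2, sub_zero]
    rw [e1, e2, h1]
    abel
  rw [e]
  refine le_trans (norm_add_le _ _) (add_le_add ?_ ?_)
  · refine le_trans (norm_mul_le _ _) (mul_le_mul ?_ hQ (norm_nonneg _) (mul_nonneg hR hd))
    exact le_trans (norm_mul_le _ _) (mul_le_mul hP hD (norm_nonneg _) hR)
  · exact le_trans (norm_mul_le _ _) (mul_le_mul hη hQ (norm_nonneg _) hh)

/-- a bound of the norms of a continuous function -/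
theorem bound (P : X → End K) (hP : Continuous P) : ∃ R : ℝ, 0 ≤ R ∧ ∀ x, ‖P x‖ ≤ R := by
  obtain ⟨R, hR⟩ := isCompact_univ.exists_bound_of_continuousOn hP.continuousOn
  exact ⟨max R 0, le_max_right _ _, fun x => le_trans (hR x (mem_univ x)) (le_max_left _ _)⟩

theorem ucont (P : X → End K) (hP : Continuous P) (η : ℝ) (hη : 0 < η) :
    ∃ δ : ℝ, 0 < δ ∧ ∀ x y, dist x y ≤ δ → ‖P x - P y‖ ≤ η := by
  have h := CompactSpace.uniformContinuous_of_continuous hP
  rw [Metric.uniformContinuous_iff] at h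
  obtain ⟨δ, hδ, h⟩ := h η hη
  refine ⟨δ / 2, by linarith, fun x y hxy => ?_⟩
  have := h (a := x) (b := y) (by linarith)
  rw [dist_eq_norm] at this
  exact this.le

/-- the off diagonal blocks are small -/
theorem blocks {C : Coc X K} {F G : X → End K} (hp : Pair C F G) (ε : ℝ) (hε : 0 < ε) :
    ∃ δ : ℝ, 0 < δ ∧ ∀ H : Coc X K, H.T = C.T → Near H δ → ∀ x,
      ‖G (H.f x) * H.A x * F x‖ ≤ ε ∧ ‖F (H.f x) * H.A x * G x‖ ≤ ε ∧
      ‖G x * H.B (H.f x) * F (H.f x)‖ ≤ ε ∧ ‖F x * H.B (H.f x) * G (H.f x)‖ ≤ ε := by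
  obtain ⟨R1, hR1, hF⟩ := bound F hp.contF
  obtain ⟨R2, hR2, hG⟩ := bound G hp.contG
  set R := max R1 R2 with hRdef
  have hR : 0 ≤ R := le_trans hR1 (le_max_left _ _)
  have hF' : ∀ x, ‖F x‖ ≤ R := fun x => le_trans (hF x) (le_max_left _ _)
  have hG' : ∀ x, ‖G x‖ ≤ R := fun x => le_trans (hG x) (le_max_right _ _)
  have hη : 0 < ε / (2 * (R + 1)) := by positivity
  obtain ⟨δ1, hδ1, u1⟩ := ucont F hp.contF _ hη
  obtain ⟨δ2, hδ2, u2⟩ := ucont G hp.contG _ hη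
  have hδ3 : 0 < ε / (2 * (R + 1) ^ 2) := by positivity
  refine ⟨min (min δ1 δ2) (ε / (2 * (R + 1) ^ 2)), lt_min (lt_min hδ1 hδ2) hδ3, ?_⟩
  intro H e hH x
  have key : R * (ε / (2 * (R + 1) ^ 2)) * R + ε / (2 * (R + 1)) * R ≤ ε := by
    have h1 : R * (ε / (2 * (R + 1) ^ 2)) * R ≤ ε / 2 := by
      have : R * (ε / (2 * (R + 1) ^ 2)) * R = (ε / 2) * (R ^ 2 / (R + 1) ^ 2) := by
        field_simp
      rw [this]
      have h2 : R ^ 2 / (R + 1) ^ 2 ≤ 1 := by
        rw [div_le_one (by positivity)]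
        exact pow_le_pow_left₀ hR (by linarith) 2
      calc (ε / 2) * (R ^ 2 / (R + 1) ^ 2) ≤ (ε / 2) * 1 :=
            mul_le_mul_of_nonneg_left h2 (by linarith)
        _ = ε / 2 := mul_one _
    have h2 : ε / (2 * (R + 1)) * R ≤ ε / 2 := by
      have : ε / (2 * (R + 1)) * R = (ε / 2) * (R / (R + 1)) := by
        field_simp
      rw [this]
      have h2 : R / (R + 1) ≤ 1 := by
        rw [div_le_one (by positivity)]
        linarith
      calc (ε / 2) * (R / (R + 1)) ≤ (ε / 2) * 1 :=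
            mul_le_mul_of_nonneg_left h2 (by linarith)
        _ = ε / 2 := mul_one _
    linarith
  have hx := hH x
  have hy := hH (H.f x)
  have d1 : dist (H.f x) x ≤ δ1 := le_trans hx.1 (le_trans (min_le_left _ _) (min_le_left _ _))
  have d2 : dist (H.f x) x ≤ δ2 := le_trans hx.1 (le_trans (min_le_left _ _) (min_le_right _ _))
  have d3 : dist x (H.f x) ≤ δ1 := by rw [dist_comm]; exact d1
  have d4 : dist x (H.f x) ≤ δ2 := by rw [dist_comm]; exact d2
  have n1 : ‖H.A x - C.T x‖ ≤ ε / (2 * (R + 1) ^ 2) := by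
    rw [← e]; exact le_trans hx.2.1 (min_le_right _ _)
  have n2 : ‖H.B (H.f x) - C.T (H.f x)‖ ≤ ε / (2 * (R + 1) ^ 2) := by
    rw [← e]; exact le_trans hy.2.2 (min_le_right _ _)
  refine ⟨?_, ?_, ?_, ?_⟩
  · exact le_trans (blk (G (H.f x)) (G x) (F x) (H.A x) (C.T x) (pTF hp x) (hp.GF x) R _ _
      (hG' _) (hF' _) n1 (u2 _ _ d2)) key
  · exact le_trans (blk (F (H.f x)) (F x) (G x) (H.A x) (C.T x) (pTG hp x) (hp.FG x) R _ _
      (hF' _) (hG' _) n1 (u1 _ _ d1)) key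
  · exact le_trans (blk (G x) (G (H.f x)) (F (H.f x)) (H.B (H.f x)) (C.T (H.f x)) (pTF hp _)
      (hp.GF _) R _ _ (hG' _) (hF' _) n2 (u2 _ _ d4)) key
  · exact le_trans (blk (F x) (F (H.f x)) (G (H.f x)) (H.B (H.f x)) (C.T (H.f x)) (pTG hp _)
      (hp.FG _) R _ _ (hF' _) (hG' _) n2 (u1 _ _ d3)) key

/-- the estimate of `Ψ - G` -/
theorem psi_est (Fx Gx Fy Gy Tx Ty D D' S' : End K) (sx : Fx + Gx = Tx) (sy : Fy + Gy = Ty)
    (hGT : Gx * Tx = Gx) (hTG : Tx * Gx = Gx) (hGG : Gx * Gx = Gx)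
    (hTD' : Tx * D' = D') (hDT : D * Tx = D) (hTD : Ty * D = D)
    (hDD : D' * D = Tx) (R κ c : ℝ) (hF : ‖Fx‖ ≤ R) (hG : ‖Gx‖ ≤ R) (hD : ‖D‖ ≤ R + 1)
    (hD' : ‖D'‖ ≤ R + 1) (h1 : ‖Gy * D * Fx‖ ≤ κ) (h2 : ‖Fy * D * Gx‖ ≤ κ)
    (h4 : ‖Fx * D' * Gy‖ ≤ κ) (hS : ‖S'‖ ≤ c * κ) (hc : 0 ≤ c) :
    ‖D' * (Gy + S') * D - Gx‖ ≤ (4 * R * (R + 1) + (R + 1) ^ 2 * c) * κ := by
  have hR : 0 ≤ R := le_trans (norm_nonneg _) hF
  have hκ : 0 ≤ κ := le_trans (norm_nonneg _) h1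
  have hR1 : 0 ≤ R + 1 := by linarith
  have e1 : D' * (Gy + S') * D - Gx = (D' * Gy * D - Gx) + D' * S' * D := by
    rw [mul_add, add_mul]; abel
  -- four blocks
  have e0 : Gx = Gx * (D' * Gy * D) * Gx + Gx * (D' * Fy * D) * Gx := by
    have : Gx * (D' * Gy * D) * Gx + Gx * (D' * Fy * D) * Gx = Gx * (D' * ((Fy + Gy) * D)) * Gx := by
      noncomm_ring
    rw [this, sy, hTD, hDD, hGT, hGG]
  have e2 : D' * Gy * D = Tx * (D' * Gy * D) * Tx := by
    have : Tx * (D' * Gy * D) * Tx = (Tx * D') * Gy * (D * Tx) := by simp only [mul_assoc]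
    rw [this, hTD', hDT]
  have e3 : D' * Gy * D - Gx = Gx * D' * (Gy * D * Fx) + (Fx * D' * Gy) * D * Gx
      + (Fx * D' * Gy) * D * Fx - Gx * D' * (Fy * D * Gx) := by
    have e4 : D' * Gy * D = Fx * (D' * Gy * D) * Fx + Fx * (D' * Gy * D) * Gx
        + Gx * (D' * Gy * D) * Fx + Gx * (D' * Gy * D) * Gx := by
      rw [← sx] at e2
      conv_lhs => rw [e2]
      noncomm_ring
    have e5 : D' * Gy * D - Gx = (Fx * (D' * Gy * D) * Fx + Fx * (D' * Gy * D) * Gx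
        + Gx * (D' * Gy * D) * Fx + Gx * (D' * Gy * D) * Gx)
        - (Gx * (D' * Gy * D) * Gx + Gx * (D' * Fy * D) * Gx) := by
      rw [← e4, ← e0]
    rw [e5]
    noncomm_ring
  have b1 : ‖Gx * D' * (Gy * D * Fx)‖ ≤ R * (R + 1) * κ := by
    refine le_trans (norm_mul_le _ _) (mul_le_mul ?_ h1 (norm_nonneg _) (mul_nonneg hR hR1))
    exact le_trans (norm_mul_le _ _) (mul_le_mul hG hD' (norm_nonneg _) hR)
  have b4 : ‖Gx * D' * (Fy * D * Gx)‖ ≤ R * (R + 1) * κ := by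
    refine le_trans (norm_mul_le _ _) (mul_le_mul ?_ h2 (norm_nonneg _) (mul_nonneg hR hR1))
    exact le_trans (norm_mul_le _ _) (mul_le_mul hG hD' (norm_nonneg _) hR)
  have b2 : ‖(Fx * D' * Gy) * D * Gx‖ ≤ κ * (R + 1) * R := by
    refine le_trans (norm_mul_le _ _) (mul_le_mul ?_ hG (norm_nonneg _) (mul_nonneg hκ hR1))
    exact le_trans (norm_mul_le _ _) (mul_le_mul h4 hD (norm_nonneg _) hκ)
  have b3 : ‖(Fx * D' * Gy) * D * Fx‖ ≤ κ * (R + 1) * R := by
    refine le_trans (norm_mul_le _ _) (mul_le_mul ?_ hF (norm_nonneg _) (mul_nonneg hκ hR1))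
    exact le_trans (norm_mul_le _ _) (mul_le_mul h4 hD (norm_nonneg _) hκ)
  have b5 : ‖D' * S' * D‖ ≤ (R + 1) * (c * κ) * (R + 1) := by
    refine le_trans (norm_mul_le _ _) (mul_le_mul ?_ hD (norm_nonneg _)
      (mul_nonneg hR1 (mul_nonneg hc hκ)))
    exact le_trans (norm_mul_le _ _) (mul_le_mul hD' hS (norm_nonneg _) hR1)
  rw [e1, e3]
  have t1 := norm_add_le (Gx * D' * (Gy * D * Fx) + (Fx * D' * Gy) * D * Gx
      + (Fx * D' * Gy) * D * Fx - Gx * D' * (Fy * D * Gx)) (D' * S' * D)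
  have t2 := norm_sub_le (Gx * D' * (Gy * D * Fx) + (Fx * D' * Gy) * D * Gx
      + (Fx * D' * Gy) * D * Fx) (Gx * D' * (Fy * D * Gx))
  have t3 := norm_add_le (Gx * D' * (Gy * D * Fx) + (Fx * D' * Gy) * D * Gx)
      ((Fx * D' * Gy) * D * Fx)
  have t4 := norm_add_le (Gx * D' * (Gy * D * Fx)) ((Fx * D' * Gy) * D * Gx)
  have : (4 * R * (R + 1) + (R + 1) ^ 2 * c) * κ = R * (R + 1) * κ + R * (R + 1) * κ
      + κ * (R + 1) * R + κ * (R + 1) * R + (R + 1) * (c * κ) * (R + 1) := by ring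
  rw [this]
  linarith

/-- the algebra of graphs -/
theorem graph_alg (T F G S : End K) (sum : F + G = T) (FF : F * F = F) (GG : G * G = G)
    (FG : F * G = 0) (GF : G * F = 0) (hS : G * S * F = S) :
    (F + S) * (F + S) = F + S ∧ T * (F + S) = F + S ∧ (F + S) * T = F + S ∧ G * S = S ∧
      F * S = 0 := by
  have gs : G * S = S := by
    rw [← hS, ← mul_assoc, ← mul_assoc, GG]
  have sf : S * F = S := by
    rw [← hS, mul_assoc, FF]
  have fs : F * S = 0 := by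
    rw [← gs, ← mul_assoc, FG, zero_mul]
  have sg : S * G = 0 := by
    rw [← sf, mul_assoc, FG, mul_zero]
  have ss : S * S = 0 := by
    have : S * S = S * (G * S) := by rw [gs]
    rw [this, ← mul_assoc, sg, zero_mul]
  refine ⟨?_, ?_, ?_, gs, fs⟩
  · rw [mul_add, add_mul, add_mul, FF, sf, fs, ss]; abel
  · rw [← sum, mul_add, add_mul, add_mul, FF, GF, fs, gs]; abel
  · rw [← sum, mul_add, add_mul, add_mul, FF, FG, sf, sg]; abel

/-- off the support for the inverse -/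
theorem off_inv (H : Coc X K) (z : X) (h : H.Off z) : H.inv.Off z := by
  obtain ⟨h1, h2⟩ := h
  have h3 : H.f.symm z = z := by
    conv_lhs => rw [← h1]
    exact H.f.symm_apply_apply z
  refine ⟨h3, ?_⟩
  change H.B z = H.T z
  have h4 := H.BA z
  rw [h1, h2, H.BT] at h4
  exact h4

theorem iter_conj (C H : Coc X K) (x : X) (j : ℕ) :
    (fun y => H.f (C.f y))^[j] (H.f x) = H.f ((fun y => C.f (H.f y))^[j] x) := by
  induction j with
  | zero => rfl
  | succ j ih => rw [Function.iterate_succ_apply', Function.iterate_succ_apply', ih]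

/-- invariance of the projection -/
theorem inv_alg (A T Q Φ Ψ Q' Φ' Ψ' : End K) (fq : Φ * Q = Q) (pq : Ψ * (T - Q) = T - Q)
    (qf' : Q' * Φ' = Φ') (qp' : Q' * Ψ' = 0) (hΦ : A * Φ = Φ' * (A * Φ))
    (hΨ : A * Ψ = Ψ' * (A * Ψ)) (hAT : A * T = A) : A * Q = Q' * A := by
  have s1 : A * Q = Q' * (A * Q) := by
    have h1 : A * Q = A * Φ * Q := by
      rw [mul_assoc, fq]
    have h2 : Q' * (A * Φ * Q) = A * Φ * Q := by
      rw [hΦ]
      have : Q' * (Φ' * (A * Φ) * Q) = (Q' * Φ') * (A * Φ) * Q := by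
        simp only [mul_assoc]
      rw [this, qf']
    rw [h1, h2]
  have s2 : Q' * (A * (T - Q)) = 0 := by
    have h1 : A * (T - Q) = A * Ψ * (T - Q) := by
      rw [mul_assoc, pq]
    rw [h1, hΨ]
    have : Q' * (Ψ' * (A * Ψ) * (T - Q)) = (Q' * Ψ') * (A * Ψ) * (T - Q) := by
      simp only [mul_assoc]
    rw [this, qp', zero_mul, zero_mul]
  rw [mul_sub, hAT, mul_sub, sub_eq_zero] at s2
  rw [s1, ← s2]

/-- PACKET B1 -/
theorem b1 (hPP : StmtPP) (hQP : StmtQP) : StmtB1 := by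
  intro X _ _ K C F G hp hc hc'
  obtain ⟨δ1, c1, l1, hδ1, hc1, hl1, hl1', P1⟩ := hPP X K C F G hp hc
  obtain ⟨δ2, c2, l2, hδ2, hc2, hl2, hl2', P2⟩ := hPP X K C.inv G F (pair_inv hp) hc'
  obtain ⟨R1, hR1, hF⟩ := bound F hp.contF
  obtain ⟨R2, hR2, hG⟩ := bound G hp.contG
  obtain ⟨R3, hR3, hT⟩ := bound C.T C.contT
  set R := max (max R1 R2) R3 with hRdef
  have hR : 0 ≤ R := le_trans hR3 (le_max_right _ _)
  have hF' : ∀ x, ‖F x‖ ≤ R := fun x =>
    le_trans (hF x) (le_trans (le_max_left _ _) (le_max_left _ _))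
  have hG' : ∀ x, ‖G x‖ ≤ R := fun x =>
    le_trans (hG x) (le_trans (le_max_right _ _) (le_max_left _ _))
  have hT' : ∀ x, ‖C.T x‖ ≤ R := fun x => le_trans (hT x) (le_max_right _ _)
  obtain ⟨δq, cq, hδq, hcq, Q0⟩ := hQP K R
  set c3 : ℝ := 4 * R * (R + 1) + (R + 1) ^ 2 * c2 with hc3
  have hc3' : 0 ≤ c3 := by
    have h1 : 0 ≤ R + 1 := by linarith
    have h2 : 0 ≤ c2 := by linarith
    rw [hc3]; positivity
  set c4 : ℝ := c1 + c3 with hc4
  have hc4' : 1 ≤ c4 := by linarith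
  have hε : 0 < δq / c4 := div_pos hδq (by linarith)
  obtain ⟨δ3, hδ3, hbl⟩ := blocks hp (δq / c4) hε
  set l := max l1 l2 with hl
  have hlpos : 0 < l := lt_of_lt_of_le hl1 (le_max_left _ _)
  refine ⟨min (min (min δ1 δ2) δ3) 1, c1 + cq * c4 + c2 * (R + 1), l,
    lt_min (lt_min (lt_min hδ1 hδ2) hδ3) one_pos, ?_, hlpos, max_lt hl1' hl2', ?_⟩
  · have : 0 ≤ cq * c4 := mul_nonneg hcq.le (by linarith)
    have : 0 ≤ c2 * (R + 1) := mul_nonneg (by linarith) (by linarith)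
    linarith
  intro H e hH κ hκ
  have hN1 : Near H δ1 := fun x => by
    have h := hH x
    have hle : min (min (min δ1 δ2) δ3) 1 ≤ δ1 :=
      le_trans (min_le_left _ _) (le_trans (min_le_left _ _) (min_le_left _ _))
    exact ⟨le_trans h.1 hle, le_trans h.2.1 hle, le_trans h.2.2 hle⟩
  have hN3 : Near H δ3 := fun x => by
    have h := hH x
    have hle : min (min (min δ1 δ2) δ3) 1 ≤ δ3 :=
      le_trans (min_le_left _ _) (min_le_right _ _)
    exact ⟨le_trans h.1 hle, le_trans h.2.1 hle, le_trans h.2.2 hle⟩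
  have hN2 : Near H.inv δ2 := fun x => by
    have h := hH x
    have hle : min (min (min δ1 δ2) δ3) 1 ≤ δ2 :=
      le_trans (min_le_left _ _) (le_trans (min_le_left _ _) (min_le_right _ _))
    refine ⟨?_, le_trans h.2.2 hle, le_trans h.2.1 hle⟩
    have h' := (hH (H.f.symm x)).1
    rw [Homeomorph.apply_symm_apply, dist_comm] at h'
    exact le_trans h' hle
  have hDn : ∀ x, ‖H.A x‖ ≤ R + 1 := fun x => by
    have h : ‖H.A x - H.T x‖ ≤ 1 := le_trans (hH x).2.1 (min_le_right _ _)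
    have h2 : ‖H.T x‖ ≤ R := by rw [e]; exact hT' x
    have h3 : ‖H.A x‖ ≤ ‖H.A x - H.T x‖ + ‖H.T x‖ := by
      have := norm_add_le (H.A x - H.T x) (H.T x)
      rwa [sub_add_cancel] at this
    linarith
  have hDn' : ∀ x, ‖H.B x‖ ≤ R + 1 := fun x => by
    have h : ‖H.B x - H.T x‖ ≤ 1 := le_trans (hH x).2.2 (min_le_right _ _)
    have h2 : ‖H.T x‖ ≤ R := by rw [e]; exact hT' x
    have h3 : ‖H.B x‖ ≤ ‖H.B x - H.T x‖ + ‖H.T x‖ := by
      have := norm_add_le (H.B x - H.T x) (H.T x)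
      rwa [sub_add_cancel] at this
    linarith
  -- the smaller bound of the blocks
  set κ' := min κ (δq / c4) with hκ'
  have hb := hbl H e hN3
  have k1 : ∀ x, ‖G (H.f x) * H.A x * F x‖ ≤ κ' := fun x => le_min (hκ x).1 (hb x).1
  have k2 : ∀ x, ‖F (H.f x) * H.A x * G x‖ ≤ κ' := fun x => le_min (hκ x).2.1 (hb x).2.1
  have k4 : ∀ x, ‖F x * H.B (H.f x) * G (H.f x)‖ ≤ κ' := fun x =>
    le_min (hκ x).2.2.2 (hb x).2.2.2
  have hκκ : κ' ≤ κ := min_le_left _ _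
  have hκδ : c4 * κ' ≤ δq := by
    have h1 : c4 * κ' ≤ c4 * (δq / c4) := mul_le_mul_of_nonneg_left (min_le_right _ _) (by linarith)
    have h2 : c4 * (δq / c4) = δq := by
      field_simp
    linarith
  have e' : H.inv.T = C.inv.T := e
  obtain ⟨S, cS, gS, nS, fS, bS, lS⟩ := P1 H e hN1 κ' k1
  obtain ⟨S', cS', gS', nS', fS', bS', lS'⟩ := P2 H.inv e' hN2 κ' (fun x => by
    have h := k4 (H.f.symm x)
    rw [Homeomorph.apply_symm_apply] at h
    exact h)
  -- projections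
  set Φ : X → End K := fun x => F x + S x with hΦ
  set Ψ' : X → End K := fun x => G x + S' x with hΨ'
  set Ψ : X → End K := fun x => H.B (H.f x) * Ψ' (H.f x) * H.A x with hΨ
  have a1 : ∀ x, Φ x * Φ x = Φ x ∧ C.T x * Φ x = Φ x ∧ Φ x * C.T x = Φ x ∧ G x * S x = S x ∧
      F x * S x = 0 := fun x =>
    graph_alg (C.T x) (F x) (G x) (S x) (hp.sum x) (hp.FF x) (hp.GG x) (hp.FG x) (hp.GF x) (gS x)
  have a2 : ∀ x, Ψ' x * Ψ' x = Ψ' x ∧ C.T x * Ψ' x = Ψ' x ∧ Ψ' x * C.T x = Ψ' x ∧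
      F x * S' x = S' x ∧ G x * S' x = 0 := fun x =>
    graph_alg (C.T x) (G x) (F x) (S' x) ((pair_inv hp).sum x) (hp.GG x) (hp.FF x) (hp.GF x)
      (hp.FG x) (gS' x)
  have HTT : ∀ x, H.T x = C.T x := fun x => by rw [e]
  have Hab : ∀ x, H.A x * H.B (H.f x) = C.T (H.f x) := fun x => by rw [H.AB, e]
  have Hba : ∀ x, H.B (H.f x) * H.A x = C.T x := fun x => by rw [H.BA, e]
  have Hta : ∀ x, C.T (H.f x) * H.A x = H.A x := fun x => by rw [← e, H.TA]
  have Hat : ∀ x, H.A x * C.T x = H.A x := fun x => by rw [← e, H.AT]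
  have Htb : ∀ x, C.T x * H.B (H.f x) = H.B (H.f x) := fun x => by
    have h := H.TB (H.f x)
    rw [Homeomorph.symm_apply_apply, e] at h
    exact h
  have Hbt : ∀ x, H.B x * C.T x = H.B x := fun x => by rw [← e, H.BT]
  have b1 : ∀ x, Ψ x * Ψ x = Ψ x := by
    intro x
    have h : Ψ x * Ψ x = H.B (H.f x) * (Ψ' (H.f x) * ((H.A x * H.B (H.f x)) * Ψ' (H.f x)))
        * H.A x := by
      simp only [hΨ, mul_assoc]
    rw [h, Hab, (a2 (H.f x)).2.1, (a2 (H.f x)).1]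
  have b2 : ∀ x, C.T x * Ψ x = Ψ x := by
    intro x
    have h : C.T x * Ψ x = (C.T x * H.B (H.f x)) * Ψ' (H.f x) * H.A x := by
      simp only [hΨ, mul_assoc]
    rw [h, Htb]
  have b3 : ∀ x, Ψ x * C.T x = Ψ x := by
    intro x
    have h : Ψ x * C.T x = H.B (H.f x) * Ψ' (H.f x) * (H.A x * C.T x) := by
      simp only [hΨ, mul_assoc]
    rw [h, Hat]
  -- A_g Ψ
  have b4 : ∀ x, (C.comp H e).A x * Ψ x
      = Ψ ((C.comp H e).f x) * ((C.comp H e).A x * Ψ x) := by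
    intro x
    have h1 : (C.comp H e).A x * Ψ x = C.A (H.f x) * Ψ' (H.f x) * H.A x := by
      have h : (C.comp H e).A x * Ψ x
          = C.A (H.f x) * ((H.A x * H.B (H.f x)) * Ψ' (H.f x)) * H.A x := by
        simp only [hΨ, Coc.comp, mul_assoc]
      rw [h, Hab, (a2 (H.f x)).2.1]
    have h2 := bS' (H.f x)
    change H.A (C.f (H.f x)) * C.A (H.f x) * Ψ' (H.f x)
      = Ψ' (H.f (C.f (H.f x))) * (H.A (C.f (H.f x)) * C.A (H.f x) * Ψ' (H.f x)) at h2
    rw [h1]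
    change _ = Ψ (C.f (H.f x)) * _
    have h3 : Ψ (C.f (H.f x)) * (C.A (H.f x) * Ψ' (H.f x) * H.A x)
        = H.B (H.f (C.f (H.f x))) * (Ψ' (H.f (C.f (H.f x)))
          * (H.A (C.f (H.f x)) * C.A (H.f x) * Ψ' (H.f x))) * H.A x := by
      simp only [hΨ, mul_assoc]
    rw [h3, ← h2]
    have h4 : H.B (H.f (C.f (H.f x))) * (H.A (C.f (H.f x)) * C.A (H.f x) * Ψ' (H.f x)) * H.A x
        = ((H.B (H.f (C.f (H.f x))) * H.A (C.f (H.f x))) * C.A (H.f x)) * Ψ' (H.f x) * H.A x := by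
      simp only [mul_assoc]
    rw [h4, Hba, C.TA]
  have nΦ : ∀ x, ‖Φ x - F x‖ ≤ c4 * κ' := by
    intro x
    have h0 : 0 ≤ κ' := le_trans (norm_nonneg _) (k1 x)
    have h : Φ x - F x = S x := by simp only [hΦ]; abel
    rw [h]
    refine le_trans (nS x) (mul_le_mul_of_nonneg_right ?_ h0)
    linarith
  have nΨ : ∀ x, ‖Ψ x - G x‖ ≤ c4 * κ' := by
    intro x
    have h0 : 0 ≤ κ' := le_trans (norm_nonneg _) (k1 x)
    have h := psi_est (F x) (G x) (F (H.f x)) (G (H.f x)) (C.T x) (C.T (H.f x)) (H.A x)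
      (H.B (H.f x)) (S' (H.f x)) (hp.sum x) (hp.sum _) (pGT hp x) (pTG hp x) (hp.GG x) (Htb x)
      (Hat x) (Hta x) (Hba x) R κ' c2 (hF' x) (hG' x) (hDn x) (hDn' _) (k1 x) (k2 x) (k4 x)
      (nS' _) (by linarith)
    refine le_trans h (mul_le_mul_of_nonneg_right ?_ h0)
    linarith
  have q := fun x => Q0 (C.T x) (F x) (G x) (Φ x) (Ψ x) (c4 * κ') (C.TT x) (hp.FF x) (hp.GG x)
    (hp.FG x) (hp.GF x) (hp.sum x) (a1 x).1 (b1 x) (a1 x).2.1 (a1 x).2.2.1 (b2 x) (b3 x) (hF' x)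
    (hG' x) (hT' x) hκδ (nΦ x) (nΨ x)
  set Q : X → End K := fun x => qproj (C.T x) (F x) (G x) (Φ x) (Ψ x) with hQ
  have cΦ : Continuous Φ := hp.contF.add cS
  have cΨ' : Continuous Ψ' := hp.contG.add cS'
  have cΨ : Continuous Ψ := ((H.contB.comp H.f.continuous).mul
    (cΨ'.comp H.f.continuous)).mul H.contA
  have cQ : Continuous Q := by
    have hU : Continuous (fun x => Φ x * F x + Ψ x * G x) :=
      (cΦ.mul hp.contF).add (cΨ.mul hp.contG)
    have hU1 : Continuous (fun x => Φ x * F x + Ψ x * G x + 1 - C.T x) :=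
      (hU.add continuous_const).sub C.contT
    have hI : Continuous (fun x => Ring.inverse (Φ x * F x + Ψ x * G x + 1 - C.T x)) := by
      rw [continuous_iff_continuousAt]
      intro x
      obtain ⟨u, hu⟩ := (q x).1
      have h1 := NormedRing.inverse_continuousAt u
      rw [hu] at h1
      exact ContinuousAt.comp (f := fun x => Φ x * F x + Ψ x * G x + 1 - C.T x) h1
        hU1.continuousAt
    exact (hU.mul hp.contF).mul hI
  have gΦ : ∀ x, (C.comp H e).A x * Φ x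
      = Φ ((C.comp H e).f x) * ((C.comp H e).A x * Φ x) := fS
  have inv1 : ∀ x, (C.comp H e).A x * Q x = Q ((C.comp H e).f x) * (C.comp H e).A x := by
    intro x
    obtain ⟨-, qq, tq, qt, fq, qf, qp, pq, -⟩ := q x
    obtain ⟨-, qq', tq', qt', fq', qf', qp', pq', -⟩ := q ((C.comp H e).f x)
    change Q x * Q x = Q x at qq
    change C.T x * Q x = Q x at tq
    change Q x * C.T x = Q x at qt
    change Φ x * Q x = Q x at fq
    change Ψ x * (C.T x - Q x) = C.T x - Q x at pq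
    change Q ((C.comp H e).f x) * Φ ((C.comp H e).f x) = Φ ((C.comp H e).f x) at qf'
    change Q ((C.comp H e).f x) * Ψ ((C.comp H e).f x) = 0 at qp'
    exact inv_alg _ _ _ _ _ _ _ _ fq pq qf' qp' (gΦ x) (b4 x) ((C.comp H e).AT x)
  have fin : ∀ (x : X) (J : ℕ) (a b : ℝ), 0 ≤ a → 0 ≤ b → b ≤ l → a ≤ c1 + cq * c4 + c2 * (R + 1) →
      a * b ^ J * κ' ≤ (c1 + cq * c4 + c2 * (R + 1)) * l ^ J * κ := by
    intro x J a b ha hb hbl hac
    have h0 : 0 ≤ κ' := le_trans (norm_nonneg _) (k1 x)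
    have h1 : b ^ J ≤ l ^ J := pow_le_pow_left₀ hb hbl J
    have h2 : 0 ≤ b ^ J := pow_nonneg hb J
    have h3 : 0 ≤ l ^ J := pow_nonneg hlpos.le J
    have h4 : a * b ^ J ≤ (c1 + cq * c4 + c2 * (R + 1)) * l ^ J :=
      mul_le_mul hac h1 h2 (le_trans ha hac)
    exact mul_le_mul h4 hκκ h0 (mul_nonneg (le_trans ha hac) h3)
  have p1 : 0 ≤ cq * c4 := mul_nonneg hcq.le (by linarith)
  have p2 : 0 ≤ c2 * (R + 1) := mul_nonneg (by linarith) (by linarith)
  refine ⟨Q, ⟨cQ, fun x => (q x).2.1, fun x => (q x).2.2.2.1, fun x => (q x).2.2.1, inv1⟩, ?_,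
    ?_, ?_⟩
  · intro x
    have h1 := (q x).2.2.2.2.2.2.2.2
    have h2 := fin x 0 (cq * c4) l p1 hlpos.le le_rfl (by linarith)
    rw [pow_zero, mul_one, mul_one] at h2
    rw [mul_assoc] at h2
    exact le_trans h1 h2
  · intro J x hoff v hv
    have fq : Φ x * Q x = Q x := (q x).2.2.2.2.1
    have h1 : Φ x v = v := by
      have h2 : (Φ x * Q x) v = Φ x (Q x v) := rfl
      rw [hv] at h2
      rw [← h2, fq, hv]
    have h2 : G x v = S x v := by
      have h3 : G x * Φ x = S x := by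
        simp only [hΦ]
        rw [mul_add, hp.GF, (a1 x).2.2.2.1, zero_add]
      have h4 : (G x * Φ x) v = G x (Φ x v) := rfl
      rw [h1, h3] at h4
      exact h4.symm
    rw [h2]
    refine le_trans ((S x).le_opNorm v) (mul_le_mul_of_nonneg_right ?_ (norm_nonneg _))
    exact le_trans (lS J x hoff) (fin x J c1 l1 (by linarith) hl1.le (le_max_left _ _)
      (by linarith))
  · intro J x hoff v hv hv0
    have pq : Ψ x * (C.T x - Q x) = C.T x - Q x := (q x).2.2.2.2.2.2.2.1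
    have h1 : Ψ x v = v := by
      have h2 : (Ψ x * (C.T x - Q x)) v = Ψ x (C.T x v - Q x v) := rfl
      rw [hv, hv0, sub_zero, pq] at h2
      rw [← h2]
      change C.T x v - Q x v = v
      rw [hv, hv0, sub_zero]
    have h2 : Ψ' (H.f x) (H.A x v) = H.A x v := by
      have h3 : H.A x * Ψ x = Ψ' (H.f x) * H.A x := by
        have h4 : H.A x * Ψ x = ((H.A x * H.B (H.f x)) * Ψ' (H.f x)) * H.A x := by
          simp only [hΨ, mul_assoc]
        rw [h4, Hab, (a2 (H.f x)).2.1]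
      have h4 : (H.A x * Ψ x) v = H.A x (Ψ x v) := rfl
      rw [h1, h3] at h4
      exact h4
    have h3 : F (H.f x) (H.A x v) = S' (H.f x) (H.A x v) := by
      have h4 : F (H.f x) * Ψ' (H.f x) = S' (H.f x) := by
        simp only [hΨ']
        rw [mul_add, hp.FG, (a2 (H.f x)).2.2.2.1, zero_add]
      have h5 : (F (H.f x) * Ψ' (H.f x)) (H.A x v) = F (H.f x) (Ψ' (H.f x) (H.A x v)) := rfl
      rw [h2, h4] at h5
      exact h5.symm
    rw [h3]
    have h4 : ‖S' (H.f x)‖ ≤ c2 * l2 ^ J * κ' := by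
      refine lS' J (H.f x) (fun j hj1 hj2 => ?_)
      have h5 : ((C.inv.comp H.inv e').f.symm)^[j] (H.f x)
          = H.f (((C.comp H e).f)^[j] x) := iter_conj C H x j
      have h6 := hoff j hj1 hj2
      rw [h5, h6.1]
      exact off_inv H _ h6
    have h5 : ‖H.A x v‖ ≤ (R + 1) * ‖v‖ :=
      le_trans ((H.A x).le_opNorm v) (mul_le_mul_of_nonneg_right (hDn x) (norm_nonneg _))
    have h6 : 0 ≤ c2 * l2 ^ J * κ' := le_trans (norm_nonneg _) h4
    have h7 : ‖S' (H.f x) (H.A x v)‖ ≤ (c2 * l2 ^ J * κ') * ((R + 1) * ‖v‖) :=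
      le_trans ((S' (H.f x)).le_opNorm _) (mul_le_mul h4 h5 (norm_nonneg _) h6)
    have h8 : (c2 * l2 ^ J * κ') * ((R + 1) * ‖v‖) = (c2 * (R + 1)) * l2 ^ J * κ' * ‖v‖ := by
      ring
    rw [h8] at h7
    refine le_trans h7 (mul_le_mul_of_nonneg_right ?_ (norm_nonneg _))
    exact fin x J (c2 * (R + 1)) l2 p2 hl2.le (le_max_right _ _) (by linarith)

end Pool.Agent.Helper93.RZ
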